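import Pool.Agent.Q213.CS.Michael

set_option autoImplicit false

/-!
Every Fréchet `C`-selective space is strongly `C`-selective.
-/

open Set Filter Topology

universe u

namespace Pool.Agent.Q213.CF

open Pool.Agent.Q213.CS

/-- `X` is strongly `Y`-selective: every lower semicontinuous map from `Y` to the nonempty subsets of
`X` has a continuous selection. -/
def StronglySelective (Y X : Type*) [TopologicalSpace Y] [TopologicalSpace X] : Prop :=
  ∀ φ : Y → Set X, (∀ y, (φ y).Nonempty) → LSC φ → ∃ f : Y → X, Continuous f ∧ ∀ y, f y ∈ φ y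

/-- `X` is strongly `C`-selective: it is strongly `Y`-selective for every countable regular (`T₁`)
space `Y`. -/
def StronglyCSelective (X : Type*) [TopologicalSpace X] : Prop :=
  ∀ (Y : Type) [TopologicalSpace Y] [Countable Y] [T3Space Y], StronglySelective Y X

/-- Selections at one point: if all punctured neighbourhoods of the new point are controlled by `ℬ`,
then there is a selection which converges along `ℬ`. -/
theorem sel {X : Type u} [TopologicalSpace X] [T1Space X] (hX : CSelective X) {N : Type}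
    [Countable N] (ℬ : Filter N) (hfree : ∀ a, {a}ᶜ ∈ ℬ) (x : X) (φ : N → Set X)
    (hcl : ∀ a, IsClosed (φ a)) (hne : ∀ a, (φ a).Nonempty)
    (hφ : ∀ U ∈ 𝓝 x, ∀ᶠ a in ℬ, (φ a ∩ U).Nonempty) :
    ∃ s : N → X, (∀ a, s a ∈ φ a) ∧ Tendsto s ℬ (𝓝 x) := by
  classical
  have h3' : T3Space (XG ℬ) := XG.t3 hfree
  let Φ : XG ℬ → Set X := fun z => match (show Option N from z) with
    | none => {x}
    | some a => φ a
  have hΦ0 : Φ (XG.inf ℬ) = {x} := rfl
  have hΦ1 : ∀ a, Φ (XG.pt ℬ a) = φ a := fun _ => rfl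
  obtain ⟨f, hfc, hf⟩ := hX (XG ℬ) Φ (by
    intro z
    rcases XG.cases z with rfl | ⟨p, rfl⟩
    · rw [hΦ0]; exact isClosed_singleton
    · rw [hΦ1]; exact hcl p) (by
    intro z
    rcases XG.cases z with rfl | ⟨p, rfl⟩
    · exact ⟨_, rfl⟩
    · rw [hΦ1]; exact hne p) (by
    refine lsc_of_ev fun z w hw U hU => ?_
    rcases XG.cases z with rfl | ⟨p, rfl⟩
    · obtain rfl : w = x := hw
      exact XG.mem_nhds_inf.2 ⟨⟨_, rfl, mem_of_mem_nhds hU⟩, hφ U hU⟩
    · rw [XG.nhds_pt]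
      exact mem_pure.2 ⟨w, hw, mem_of_mem_nhds hU⟩)
  refine ⟨fun a => f (XG.pt ℬ a), fun a => hf (XG.pt ℬ a), ?_⟩
  have h2 := hfc.continuousAt (x := XG.inf ℬ)
  have h0 : f (XG.inf ℬ) = x := hf (XG.inf ℬ)
  rw [ContinuousAt, h0, XG.nhds_inf, tendsto_sup] at h2
  exact tendsto_map'_iff.1 h2.2

/-- The neighbourhood filters of the countable subspaces of a `C`-selective space are countably
generated. -/
theorem cg {X : Type u} [TopologicalSpace X] [T1Space X] (hX : CSelective X) (x : X) (e : ℕ → X)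
    (he : ∀ i, e i ≠ x) (D : Set X) (hD : D = insert x (range e)) :
    (𝓝[D] x).IsCountablyGenerated := by
  classical
  by_cases hx : x ∈ closure (range e)
  swap
  · have h1 : 𝓝[D] x = 𝓟 {x} := by
      refine le_antisymm ?_ ?_
      · rw [le_principal_iff, mem_nhdsWithin]
        refine ⟨(closure (range e))ᶜ, isClosed_closure.isOpen_compl, hx, ?_⟩
        rintro y ⟨hy1, hy2⟩
        rw [hD] at hy2
        rcases hy2 with rfl | hy2
        · rfl
        · exact absurd (subset_closure hy2) hy1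
      · rw [principal_singleton]
        refine pure_le_nhdsWithin ?_
        rw [hD]; exact mem_insert _ _
    rw [h1]
    infer_instance
  let ℬ : Filter (ℕ × ℕ) := (𝓝 x).lift' fun U => {p | e p.1 ∈ U ∨ e p.2 ∈ U}
  have hmono : Monotone fun U : Set X => {p : ℕ × ℕ | e p.1 ∈ U ∨ e p.2 ∈ U} :=
    fun U V h p hp => hp.imp (fun h' => h h') (fun h' => h h')
  have hmem : ∀ s : Set (ℕ × ℕ), s ∈ ℬ ↔ ∃ U ∈ 𝓝 x, {p : ℕ × ℕ | e p.1 ∈ U ∨ e p.2 ∈ U} ⊆ s :=
    fun s => mem_lift'_sets hmono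
  have hfree : ∀ p, {p}ᶜ ∈ ℬ := by
    intro p
    refine (hmem _).2 ⟨_, inter_mem (isOpen_compl_singleton.mem_nhds (he p.1).symm)
      (isOpen_compl_singleton.mem_nhds (he p.2).symm), ?_⟩
    rintro p' h rfl
    rcases h with h | h
    · exact h.1 rfl
    · exact h.2 rfl
  obtain ⟨s, hs, hsx⟩ := sel hX ℬ hfree x (fun p => {e p.1, e p.2})
    (fun p => ((finite_singleton _).insert _).isClosed) (fun p => ⟨_, Or.inl rfl⟩) (by
      intro U hU
      refine (hmem _).2 ⟨U, hU, ?_⟩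
      rintro p (h | h)
      · exact ⟨e p.1, Or.inl rfl, h⟩
      · exact ⟨e p.2, Or.inr rfl, h⟩)
  have hV : ∀ U ∈ 𝓝 x, ∃ V ∈ 𝓝 x, ∀ a b, (e a ∈ V ∨ e b ∈ V) → s (a, b) ∈ U := by
    intro U hU
    obtain ⟨V, hV, hVs⟩ := (hmem _).1 (hsx hU)
    exact ⟨V, hV, fun a b hab => hVs hab⟩
  refine isCountablyGenerated_of_seq ⟨fun i => insert x {y | ∃ j, e j = y ∧ s (i, j) = e j}, ?_⟩
  refine le_antisymm (le_iInf fun i => ?_) ?_
  · rw [le_principal_iff, mem_nhdsWithin_iff_exists_mem_nhds_inter]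
    obtain ⟨V, hV1, hV2⟩ := hV _ (isOpen_compl_singleton.mem_nhds (he i).symm)
    refine ⟨V, hV1, ?_⟩
    rintro y ⟨hy1, hy2⟩
    rw [hD] at hy2
    rcases hy2 with rfl | ⟨j, rfl⟩
    · exact Or.inl rfl
    · refine Or.inr ⟨j, rfl, ?_⟩
      have h5 := hV2 i j (Or.inr hy1)
      rcases hs (i, j) with h6 | h6
      · exact absurd h6 h5
      · exact h6
  · intro U hU
    rw [mem_nhdsWithin_iff_exists_mem_nhds_inter] at hU
    obtain ⟨U', hU', hUU⟩ := hU
    obtain ⟨V, hV1, hV2⟩ := hV U' hU'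
    obtain ⟨_, h7, ⟨i, rfl⟩⟩ := mem_closure_iff_nhds.1 hx V hV1
    refine mem_iInf_of_mem i (mem_principal.2 ?_)
    rintro y (rfl | ⟨j, rfl, h8⟩)
    · refine hUU ⟨mem_of_mem_nhds hU', ?_⟩
      rw [hD]; exact mem_insert _ _
    · refine hUU ⟨?_, ?_⟩
      · rw [← h8]
        exact hV2 i j (Or.inl h7)
      · rw [hD]
        exact Or.inr ⟨j, rfl⟩

/-- The countable subspaces of a `C`-selective space are first countable. -/
theorem firstCountable {X : Type u} [TopologicalSpace X] [T1Space X] (hX : CSelective X)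
    {D : Set X} (hD : D.Countable) : FirstCountableTopology D := by
  classical
  refine ⟨fun x => ?_⟩
  have key : (𝓝[D] (x : X)).IsCountablyGenerated := by
    by_cases hne : (D \ {(x : X)}).Nonempty
    · obtain ⟨e, he⟩ := (hD.mono sdiff_subset).exists_eq_range hne
      refine cg hX x e ?_ D ?_
      · intro i hi
        have : e i ∈ D \ {(x : X)} := by rw [he]; exact ⟨i, rfl⟩
        exact this.2 hi
      · rw [← he, insert_sdiff_singleton, insert_eq_of_mem x.2]
    · have h1 : D = {(x : X)} := by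
        refine Subset.antisymm (fun y hy => ?_) (singleton_subset_iff.2 x.2)
        by_contra h2
        exact hne ⟨y, hy, h2⟩
      have h2 : 𝓝[D] (x : X) = 𝓟 {(x : X)} := by
        rw [principal_singleton]
        refine le_antisymm ?_ (pure_le_nhdsWithin x.2)
        rw [← principal_singleton]
        refine le_trans inf_le_right ?_
        rw [← h1]
      rw [h2]
      infer_instance
  rw [nhds_subtype_eq_comap_nhdsWithin]
  infer_instance

/-- One step of the closing off argument. -/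
theorem step {X : Type u} [TopologicalSpace X] [T1Space X] [FrechetUrysohnSpace X]
    (hX : CSelective X) {Y : Type} [TopologicalSpace Y] [Countable Y] [T3Space Y] {φ : Y → Set X}
    (hφ : LSC φ) (hne : ∀ y, (φ y).Nonempty) (y : Y) (x : X) (hx : x ∈ φ y) :
    ∃ A : Y → Set X, (∀ z, (A z).Countable ∧ A z ⊆ φ z) ∧
      ∀ U ∈ 𝓝 x, ∀ᶠ z in 𝓝 y, (A z ∩ U).Nonempty := by
  classical
  obtain ⟨s, hs, hsx⟩ := sel hX (𝓝[≠] y) (fun a => by
      by_cases h : a = y
      · rw [h]; exact self_mem_nhdsWithin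
      · exact mem_nhdsWithin_of_mem_nhds (isOpen_compl_singleton.mem_nhds (Ne.symm h))) x
    (fun z => closure (φ z)) (fun z => isClosed_closure) (fun z => (hne z).closure) (by
      intro U hU
      refine mem_nhdsWithin_of_mem_nhds ?_
      filter_upwards [hφ.ev hx hU] with z hz
      exact hz.mono (inter_subset_inter_left _ subset_closure))
  have h1 : ∀ z, ∃ t : ℕ → X, (∀ n, t n ∈ φ z) ∧ Tendsto t atTop (𝓝 (s z)) := fun z =>
    mem_closure_iff_seq_limit.1 (hs z)
  choose t ht htl using h1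
  refine ⟨fun z => range (t z) ∪ {w | z = y ∧ w = x}, fun z => ⟨?_, ?_⟩, ?_⟩
  · refine (countable_range _).union ((countable_singleton x).mono ?_)
    rintro w ⟨-, rfl⟩
    rfl
  · rintro w (⟨n, rfl⟩ | ⟨rfl, rfl⟩)
    · exact ht z n
    · exact hx
  · intro U hU
    have h2 := hsx (interior_mem_nhds.2 hU)
    rw [mem_map, mem_nhdsWithin_iff_exists_mem_nhds_inter] at h2
    obtain ⟨V, hV, hVs⟩ := h2
    filter_upwards [hV] with z hz
    by_cases hzy : z = y
    · exact ⟨x, Or.inr ⟨hzy, rfl⟩, mem_of_mem_nhds hU⟩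
    · have h3 : s z ∈ interior U := hVs ⟨hz, hzy⟩
      obtain ⟨n, hn⟩ := ((htl z).eventually (isOpen_interior.mem_nhds h3)).exists
      exact ⟨t z n, Or.inl ⟨n, rfl⟩, interior_subset hn⟩

/-- **Main theorem.** Every Fréchet `C`-selective space is strongly `C`-selective. -/
theorem main {X : Type u} [TopologicalSpace X] [T1Space X] [FrechetUrysohnSpace X]
    (hX : CSelective X) : StronglyCSelective X := by
  classical
  intro Y _ _ _ φ hne hφ
  have h1 : ∀ y x, ∃ A : Y → Set X, (∀ z, (A z).Countable ∧ A z ⊆ φ z) ∧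
      (x ∈ φ y → ∀ U ∈ 𝓝 x, ∀ᶠ z in 𝓝 y, (A z ∩ U).Nonempty) := by
    intro y x
    by_cases hx : x ∈ φ y
    · obtain ⟨A, hA, hA'⟩ := step hX hφ hne y x hx
      exact ⟨A, hA, fun _ => hA'⟩
    · exact ⟨fun _ => ∅, fun z => ⟨countable_empty, empty_subset _⟩, fun h => absurd h hx⟩
  choose A hA hAU using h1
  choose x0 hx0 using hne
  let B : ℕ → Y → Set X := fun n => Nat.rec (fun y => {x0 y})
    (fun _ B z => B z ∪ ⋃ y, ⋃ x ∈ B y, A y x z) n
  have hB0 : B 0 = fun y => {x0 y} := rfl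
  have hBs : ∀ n z, B (n + 1) z = B n z ∪ ⋃ y, ⋃ x ∈ B n y, A y x z := fun _ _ => rfl
  have hBc : ∀ n z, (B n z).Countable ∧ B n z ⊆ φ z := by
    intro n
    induction n with
    | zero =>
      intro z
      rw [hB0]
      exact ⟨countable_singleton _, singleton_subset_iff.2 (hx0 z)⟩
    | succ n ih =>
      intro z
      rw [hBs]
      refine ⟨(ih z).1.union (countable_iUnion fun y => (ih y).1.biUnion fun x _ => (hA y x z).1),
        union_subset (ih z).2 (iUnion_subset fun y => iUnion₂_subset fun x _ => (hA y x z).2)⟩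
  let C : Y → Set X := fun z => ⋃ n, B n z
  have hCc : ∀ z, (C z).Countable := fun z => countable_iUnion fun n => (hBc n z).1
  have hCφ : ∀ z, C z ⊆ φ z := fun z => iUnion_subset fun n => (hBc n z).2
  have hCne : ∀ z, (C z).Nonempty := fun z => ⟨x0 z, mem_iUnion.2 ⟨0, rfl⟩⟩
  have hCL : ∀ y, ∀ x ∈ C y, ∀ U ∈ 𝓝 x, ∀ᶠ z in 𝓝 y, (C z ∩ U).Nonempty := by
    intro y x hx U hU
    obtain ⟨n, hn⟩ := mem_iUnion.1 hx
    filter_upwards [hAU y x ((hBc n y).2 hn) U hU] with z hz
    obtain ⟨w, hw1, hw2⟩ := hz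
    refine ⟨w, mem_iUnion.2 ⟨n + 1, ?_⟩, hw2⟩
    rw [hBs]
    exact Or.inr (mem_iUnion.2 ⟨y, mem_iUnion₂.2 ⟨x, hn, hw1⟩⟩)
  let D : Set X := ⋃ y, C y
  have hD : D.Countable := countable_iUnion hCc
  have hfc : FirstCountableTopology D := firstCountable hX hD
  have hCD : ∀ y, C y ⊆ D := fun y => subset_iUnion C y
  obtain ⟨f, hf1, hf2⟩ := michael (X := D) (φ := fun y => ((↑) : D → X) ⁻¹' C y) (by
    refine lsc_of_ev fun y x hx U hU => ?_
    rw [nhds_subtype, mem_comap] at hU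
    obtain ⟨V, hV, hVU⟩ := hU
    filter_upwards [hCL y x hx V hV] with z hz
    obtain ⟨w, hw1, hw2⟩ := hz
    exact ⟨⟨w, hCD z hw1⟩, hw1, hVU hw2⟩) (fun y => by
    obtain ⟨w, hw⟩ := hCne y
    exact ⟨⟨w, hCD y hw⟩, hw⟩)
  exact ⟨fun y => (f y : X), continuous_subtype_val.comp hf1, fun y => hCφ y (hf2 y)⟩

end Pool.Agent.Q213.CF
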